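import Pool.Agent.Lib.HS.Top
import Pool.Agent.Lib.HS32.MAll
import Pool.Agent.Lib.HS68.Calg
import Pool.Agent.Lib.HS21.B_APR
import Pool.Agent.Lib.HS21.B_AUB
import Pool.Agent.Lib.HS21.B_BR
import Pool.Agent.Lib.HS21.B_C2
import Pool.Agent.Lib.HS21.B_C3
import Pool.Agent.Lib.HS21.B_CMP
import Pool.Agent.Lib.HS21.B_DENS
import Pool.Agent.Lib.HS21.B_DENSE
import Pool.Agent.Lib.HS21.B_EST
import Pool.Agent.Lib.HS21.B_EUL
import Pool.Agent.Lib.HS21.B_FAM
import Pool.Agent.Lib.HS21.B_FAM2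
import Pool.Agent.Lib.HS21.B_HK
import Pool.Agent.Lib.HS21.B_INTP
import Pool.Agent.Lib.HS21.B_L2
import Pool.Agent.Lib.HS21.B_LIME
import Pool.Agent.Lib.HS21.B_LIN
import Pool.Agent.Lib.HS21.B_LINR
import Pool.Agent.Lib.HS.P21
import Pool.Agent.Lib.HS21.B_REAL
import Pool.Agent.Lib.HS21.B_REG
import Pool.Agent.Lib.HS21.B_REM
import Pool.Agent.Lib.HS21.B_RES
import Pool.Agent.Lib.HS21.B_UNI
import Pool.Agent.Lib.HS21.B_UNIA

/-! The linear theory and the theorem of Aubin, without hypotheses. -/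

namespace Pool.Agent.Lib.HS21

open Pool.Agent.Lib.HS32

variable {n : ℕ}

theorem eHK : St_HK n := st_HK
theorem eINTP : St_INTP n := st_INTP eHK
theorem eRES : St_RES n := st_RES eHK
theorem eDENSE : St_DENSE n := st_DENSE eHK eRES st_DENS
theorem eFAM : St_FAM n := st_FAM eHK
theorem eFAM2 : St_FAM2 n := st_FAM2 eFAM
theorem eREAL : St_REAL n := st_REAL eFAM
theorem eREG : St_REG n := st_REG eHK eFAM eREAL eRES
theorem eLIME : St_LIME n := st_LIME
theorem eBR : St_BR n := st_BR eHK eINTP eFAM eFAM2 mCHN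
theorem eUNI : St_UNI n := st_UNI eHK eFAM eBR eREG
theorem ePAR : St_PAR n := st_PAR eHK eINTP eFAM eFAM2 eREAL eRES st_DENS eDENSE eBR mTR mCHN
theorem eEST : St_EST n := st_EST eHK eFAM eFAM2 eBR eUNI
theorem eLIN : St_LIN n := st_LIN eHK eBR st_DENS ePAR eEST eLIME
theorem eL2 : St_L2 n := st_L2
theorem eLINR : St_LINR n := st_LINR mINV mHES mLAP eLIN
theorem eCMP : St_CMP n := st_CMP mINV mHES mMAXE eFAM2
theorem eC2 : St_C2 n := st_C2 eFAM eBR eCMP mINV mLAP mHES mBD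
theorem eC3 : St_C3 n := st_C3 eFAM eCMP mLAP mHES HS68.st_CALG
theorem eAPR : St_APR n := st_APR eFAM eFAM2 eBR eREG eUNI eCMP eC2 eC3
theorem eUNIA : St_UNIA n := st_UNIA eFAM eFAM2 eBR eUNI eCMP eLINR
theorem eREM : St_REM n := st_REM eHK eFAM eFAM2 eCMP eLINR mTR mHES
theorem eEUL : St_EUL n := st_EUL eHK eBR eCMP eLINR eAPR eUNIA eREM
theorem eAUB : St_AUB n := st_AUB eHK eFAM eBR eCMP eAPR eEUL eLIME

theorem st_AUBIN : HS.St_AUBIN := fun n M _ G F t _ hG hF ht => by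
  obtain ⟨V, -⟩ := (mCOV n M).2.2.1
  exact eAUB M V G t F hG ht hF

theorem st_RESV : HS.St_RESV := fun n M _ G f t _ hG hf ht => by
  obtain ⟨V, -⟩ := (mCOV n M).2.2.1
  exact eLINR.ex M V G f t hG.toMet hf ht

end Pool.Agent.Lib.HS21
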