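import Pool.Agent.Lib.KP21.Blue
import Pool.Agent.Lib.HS21.B_BR

/-! Global sizes and bounded families. -/

open scoped Classical Topology ContDiff
open Set Filter Complex Metric

noncomputable section

namespace Pool.Agent.Lib.KP21

open Pool.Agent.Lib.SV (E)
open Pool.Agent.Lib.HS32 Pool.Agent.Lib.HS21
open Pool.Agent.Lib.HS21.BR (ho_su ho_empty ls_mul ls_congr ls_glue ball_sub kb_sub kb_cpt kb_nhds kb_nn le_sum toGH toGS nrm_inv aux_le)

namespace BRc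

variable {n : ℕ}

variable {M : Mf n} {T : Type} {m : M.Co} {k : ℕ}

theorem chg (hC : St_CHN) {e e0 : M.Ch} (he : e ∈ M.C) (he0 : e0 ∈ M.C) {z : E n}
    (hz : z ∈ e.target) (hx : e.symm z ∈ e0.source) (m : M.Co) :
    ∀ᶠ w in 𝓝 z, ContDiffAt ℝ ∞ (e0 ∘ e.symm) w ∧
      ContDiffAt ℝ ∞ (fun w => m.c e0 e (e.symm w)) w ∧
      ∀ s, M.SecC m s → s e0 ((e0 ∘ e.symm) w) * m.c e0 e (e.symm w) = s e w := by
  have h := BTR.ov_nhds hx (e.map_target hz)
  rw [e.right_inv hz] at h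
  filter_upwards [h] with w hw
  have h1 := BTR.holN he0 he hw.2 (e.map_target hw.1)
  have h2 := m.sm e0 he0 e he _ hw.2 (e.map_target hw.1)
  simp only [e.right_inv hw.1] at h1 h2
  refine ⟨(hC n _ _ h1).1, h2, fun s hs => ?_⟩
  have h3 := hs.cmp e0 he0 e he _ hw.2 (e.map_target hw.1)
  simp only [e.right_inv hw.1] at h3
  exact h3.symm

theorem toGB' (hF : St_FAM n) (hF2 : St_FAM2 n) (hC : St_CHN) {s : T → M.Fam ℂ}
    (hs : ∀ t, M.SecC m (s t))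
    (h : ∀ x, ∃ e ∈ M.C, x ∈ e.source ∧ LB k (e x) fun t => s t e) : GB M k s := by
  intro e he z hz
  obtain ⟨e0, he0, hx, H⟩ := h (e.symm z)
  have h1 := chg hC he he0 hz hx m
  exact hF.congr T k z _ _ (h1.mono fun w hw t => hw.2.2 _ (hs t))
    (hF.mul T k z _ _ (hF2.comp T k z _ (fun t => s t e0) (h1.mono fun w hw => hw.1) H)
      (hF.fix T k z _ h1.self_of_nhds.2.1 (h1.mono fun w hw => hw.2.1)))

theorem toGU' (hF : St_FAM n) (hF2 : St_FAM2 n) (hC : St_CHN) {s : T → M.Fam ℂ}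
    (hs : ∀ t, M.SecC m (s t))
    (h : ∀ x, ∃ e ∈ M.C, x ∈ e.source ∧ LS (e x) fun t => s t e) : GU M s := by
  intro e he z hz
  obtain ⟨e0, he0, hx, H⟩ := h (e.symm z)
  have h1 := chg hC he he0 hz hx m
  exact ls_congr (h1.mono fun w hw t => hw.2.2 _ (hs t))
    (ls_mul (hF2.compS T z _ (fun t => s t e0) (h1.mono fun w hw => hw.1) H)
      (hF.ls T 0 z _ (hF.fix T 0 z _ h1.self_of_nhds.2.1 (h1.mono fun w hw => hw.2.1))))

variable (V : M.Cov)

theorem kb_sm {s : M.Fam ℂ} (hs : M.SecC m s) (a : Fin V.r) : SmO (Kb V a) (s (V.e a)) :=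
  fun x hx => hs.sm _ (V.mem a) x (kb_sub V a hx)

theorem toGB (hF : St_FAM n) (hF2 : St_FAM2 n) (hC : St_CHN) {s : T → M.Fam ℂ} {B : ℝ}
    (hs : ∀ t, M.SecC m (s t)) (h : ∀ t, GH V k (s t) B) : GB M k s := by
  refine toGB' hF hF2 hC hs fun x => ?_
  obtain ⟨a, hx, ha⟩ := kb_nhds V x
  exact ⟨_, V.mem a, hx, _, ha, B, fun t => ⟨kb_sm V (hs t) a, h t a⟩⟩

theorem toGU (hF : St_FAM n) (hF2 : St_FAM2 n) (hC : St_CHN) {s : T → M.Fam ℂ} {B : ℝ}
    (hs : ∀ t, M.SecC m (s t)) (h : ∀ t, GS V (s t) B) : GU M s := by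
  refine toGU' hF hF2 hC hs fun x => ?_
  obtain ⟨a, hx, ha⟩ := kb_nhds V x
  exact ⟨_, V.mem a, hx, _, ha, B, fun t => ⟨kb_sm V (hs t) a, h t a⟩⟩

theorem fix (hF : St_FAM n) (T : Type) (k : ℕ) {s : M.Fam ℂ} (hs : M.SecC m s) :
    GB M k fun _ : T => s := fun e he z hz =>
  hF.fix T k z _ (hs.sm e he z hz)
    (Eventually.mono (e.open_target.mem_nhds hz) fun w hw => hs.sm e he w hw)

theorem siz (hHK : St_HK n) (hF : St_FAM n) : Siz (secC M m) (GH V k) where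
  ex f hf := by
    obtain ⟨B, hB, H⟩ := toGH V hHK hF (fix hF Unit k hf)
    exact ⟨B, hB, H ()⟩
  mono f _ B B' hB h a := hHK.mono k _ _ _ _ _ Subset.rfl hB (h a)
  add f hf g hg B B' h h' a := hHK.add k _ _ _ _ _ (kb_sm V hf a) (kb_sm V hg a) (h a) (h' a)
  neg f hf B h a := by
    have h1 := hHK.smul k _ (-1) _ _ (kb_sm V hf a) (h a)
    simp only [neg_mul, one_mul, norm_neg, norm_one] at h1
    exact h1

theorem sec_smul (c : ℂ) {s : M.Fam ℂ} (hs : M.SecC m s) : M.SecC m fun e z => c * s e z :=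
  ⟨fun e he z hz => contDiffAt_const.mul (hs.sm e he z hz), fun e he e' he' x hx hx' => by
    simp only [hs.cmp e he e' he' x hx hx', mul_assoc]⟩

theorem cptH (hHK : St_HK n) (hF : St_FAM n) (hF2 : St_FAM2 n) (hC : St_CHN) (m : M.Co) (k : ℕ)
    {e : M.Ch} (he : e ∈ M.C) {K : Set (E n)} (hK : K ⊆ e.target) (hc : IsCompact K) :
    ∃ C, 0 ≤ C ∧ ∀ s B, M.SecC m s → GH V k s B → HO k K (s e) (C * B) := by
  have h1 : GB M k fun (p : {p : M.Fam ℂ × ℝ // M.SecC m p.1 ∧ 0 < p.2 ∧ GH V k p.1 p.2}) e z =>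
      (p.1.2 : ℂ)⁻¹ * p.1.1 e z :=
    toGB V hF hF2 hC (B := 1) (fun p => sec_smul _ p.2.1) fun p a => by
      rw [← nrm_inv p.2.2.1]
      exact hHK.smul k _ _ _ _ (kb_sm V p.2.1 a) (p.2.2.2 a)
  obtain ⟨C, hC0, H⟩ := hF.glue _ k K _ hc fun z hz => h1 e he z (hK hz)
  have h2 : ∀ s B, M.SecC m s → 0 < B → GH V k s B → HO k K (s e) (C * B) := fun s B hs hB h => by
    have h3 := hHK.smul k K B _ _ (H ⟨(s, B), hs, hB, h⟩).1 (H ⟨(s, B), hs, hB, h⟩).2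
    have h4 : (B : ℂ) ≠ 0 := ofReal_ne_zero.2 hB.ne'
    simp only [mul_inv_cancel_left₀ h4, Complex.norm_real, Real.norm_of_nonneg hB.le] at h3
    rw [mul_comm]
    exact h3
  refine ⟨C, hC0.le, fun s B hs h => ?_⟩
  rcases K.eq_empty_or_nonempty with rfl | ⟨z, -⟩
  · exact ho_empty _ _ _
  obtain ⟨a, -⟩ := V.cov (e.symm z)
  have h0 := kb_nn V a (ho_su (h a))
  refine hHK.closed k K _ _ fun ε hε => ?_
  have h5 := div_pos hε hC0
  rw [← aux_le hC0]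
  exact h2 s _ hs (by linarith) fun a => hHK.mono k _ _ _ _ _ Subset.rfl (by linarith) (h a)

theorem cptS (hF : St_FAM n) (hF2 : St_FAM2 n) (hC : St_CHN) (m : M.Co)
    {e : M.Ch} (he : e ∈ M.C) {K : Set (E n)} (hK : K ⊆ e.target) (hc : IsCompact K) :
    ∃ C, 0 ≤ C ∧ ∀ s B, M.SecC m s → GS V s B → Su K (s e) (C * B) := by
  have h1 : GU M fun (p : {p : M.Fam ℂ × ℝ // M.SecC m p.1 ∧ 0 < p.2 ∧ GS V p.1 p.2}) e z =>
      (p.1.2 : ℂ)⁻¹ * p.1.1 e z :=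
    toGU V hF hF2 hC (B := 1) (fun p => sec_smul _ p.2.1) fun p a x hx => by
      rw [← nrm_inv p.2.2.1, norm_mul]
      exact mul_le_mul_of_nonneg_left (p.2.2.2 a x hx) (norm_nonneg _)
  obtain ⟨C, hC0, H⟩ := ls_glue hc fun z hz => h1 e he z (hK hz)
  have h2 : ∀ s B, M.SecC m s → 0 < B → GS V s B → Su K (s e) (C * B) := fun s B hs hB h z hz => by
    have h3 := H ⟨(s, B), hs, hB, h⟩ z hz
    simp only [norm_mul, norm_inv, Complex.norm_real, Real.norm_of_nonneg hB.le] at h3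
    rw [mul_comm]
    exact (inv_mul_le_iff₀ hB).1 h3
  refine ⟨C, hC0.le, fun s B hs h z hz => ?_⟩
  obtain ⟨a, -⟩ := V.cov (e.symm z)
  have h0 := kb_nn V a (h a)
  refine le_of_forall_pos_le_add fun ε hε => ?_
  have h5 := div_pos hε hC0
  rw [← aux_le hC0]
  exact h2 s _ hs (by linarith) (fun a x hx => (h a x hx).trans (by linarith)) z hz

theorem ip1 (hHK : St_HK n) (hI : St_INTP n) (hF : St_FAM n) (hF2 : St_FAM2 n) (hC : St_CHN)
    (m : M.Co) {ε : ℝ} (hε : 0 < ε) : ∃ C, 0 ≤ C ∧ ∀ s B B', M.SecC m s →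
      GH V 2 s B → GS V s B' → GH V 1 s (ε * B + C * B') := by
  have hs3 := fun a => ball_sub V a (c := 3) (by norm_num)
  choose A hA HA using fun a =>
    cptH V hHK hF hF2 hC m 2 (V.mem a) (hs3 a) (isCompact_closedBall _ _)
  choose A' hA' HA' using fun a => cptS V hF hF2 hC m (V.mem a) (hs3 a) (isCompact_closedBall _ _)
  have hp : ∀ a, 0 < A a + 1 := fun a => by linarith [hA a]
  choose C hC0 H using fun a => hI.ip1 (ε / (A a + 1)) (V.ρ a) (div_pos hε (hp a)) (V.pos a)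
  have hn : ∀ a, 0 ≤ C a * A' a := fun a => mul_nonneg (hC0 a) (hA' a)
  refine ⟨∑ a, C a * A' a, Finset.sum_nonneg fun a _ => hn a, fun s B B' hs h h' a => ?_⟩
  have hB := kb_nn V a (ho_su (h a))
  have hB' := kb_nn V a (h' a)
  refine hHK.mono 1 _ _ _ _ _ Subset.rfl ?_ (H a (Kb V a) _ (s (V.e a)) _ _ (fun x hx => ?_)
    (fun x hx => hs.sm _ (V.mem a) x (hs3 a hx)) (HA a s B hs h) (HA' a s B' hs h'))
  · refine add_le_add ?_ ?_
    · rw [← mul_assoc]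
      refine mul_le_mul_of_nonneg_right ?_ hB
      rw [div_mul_eq_mul_div, div_le_iff₀ (hp a)]
      nlinarith
    · rw [← mul_assoc]
      exact mul_le_mul_of_nonneg_right (le_sum hn a) hB'
  · refine closedBall_subset_closedBall' ?_
    have := mem_closedBall.1 hx
    linarith

end BRc

open BRc in
theorem st_BR {n : ℕ} (hHK : St_HK n) (hI : St_INTP n) (hF : St_FAM n) (hF2 : St_FAM2 n)
    (hC : St_CHN) : St_BR n where
  toGH _ V _ _ _ h := toGH V hHK hF h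
  toGB _ V _ _ _ _ _ hs h := toGB V hF hF2 hC hs h
  toGB' _ _ _ _ _ hs h := toGB' hF hF2 hC hs h
  toGU _ V _ _ _ _ hs h := toGU V hF hF2 hC hs h
  toGS _ V _ _ h := toGS V h
  fix _ T _ k _ hs := fix hF T k hs
  siz _ V _ _ := siz V hHK hF
  cptH _ V m k _ he _ hK hc := cptH V hHK hF hF2 hC m k he hK hc
  cptS _ V m _ he _ hK hc := cptS V hF hF2 hC m he hK hc
  ip1 _ V m _ hε := ip1 V hHK hI hF hF2 hC m hε

end Pool.Agent.Lib.KP21
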