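import Pool.Agent.Lib.KP21.Blue
import Pool.Agent.Lib.HS21.B_EST

/-! The estimate for the shifted operators. -/

open scoped Classical Topology ContDiff ComplexOrder Matrix
open Set Filter Complex Metric

set_option linter.unusedVariables false

noncomputable section

namespace Pool.Agent.Lib.KP21

open Pool.Agent.Lib.SV (E)
open Pool.Agent.Lib.HS32 Pool.Agent.Lib.HS21
open Pool.Agent.Lib.HS21.EST (fd_smul dz_smul dzb_smul hess_smul lop_smul sh_smul)

namespace ESTc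

variable {n : ℕ}

variable {M : Mf n}

theorem sec_smul {m : M.Co} {s : M.Fam ℂ} (a : ℂ) (hs : M.SecC m s) :
    M.SecC m fun e z => a * s e z :=
  ⟨fun e he z hz => contDiffAt_const.mul (hs.sm e he z hz), fun e he e' he' x hx hx' => by
    simp only [hs.cmp e he e' he' x hx hx', mul_assoc]⟩

theorem sec_sh {m : M.Co} {L : Op M} (hL : L.OkC m) (τ : ℝ) {s : M.Fam ℂ} (hs : M.SecC m s) :
    M.SecC m (L.sh τ s) :=
  (secC M m).sub_mem (x := fun e z => τ * s e z) (y := L.ap s) (sec_smul _ hs) (hL.sec s hs)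

theorem smO {m : M.Co} {s : M.Fam ℂ} (hs : M.SecC m s) (V : M.Cov) (a : Fin V.r) :
    SmO (Kb V a) (s (V.e a)) := fun x hx =>
  hs.sm _ (V.mem a) x (V.sub a (closedBall_subset_closedBall (by linarith [V.pos a]) hx))

theorem gh_smul (hHK : St_HK n) {m : M.Co} {k : ℕ} {s : M.Fam ℂ} (hs : M.SecC m s) {V : M.Cov} {B : ℝ}
    (c : ℝ) (hc : 0 ≤ c) (h : GH V k s B) : GH V k (fun e z => c * s e z) (c * B) := fun a => by
  have := hHK.smul k _ c _ B (smO hs V a) (h a)
  rwa [norm_real, Real.norm_of_nonneg hc] at this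

/-- The estimate for normalized sections. -/
theorem unit (hFAM : St_FAM n) (hFAM2 : St_FAM2 n) (hBR : St_BR n) (hUNI : St_UNI n)
    (V : M.Cov) (m : M.Co) (k : ℕ) (L : Op M) (t t' : ℝ) (hL : L.OkC m) : ∃ C, 0 < C ∧ ∀ τ ∈ Icc t t',
      ∀ s, M.SecC m s → GH V k (L.sh τ s) 1 → GS V s 1 → GH V (k + 2) s C := by
  let T : Type := {p : ℝ × M.Fam ℂ //
    p.1 ∈ Icc t t' ∧ M.SecC m p.2 ∧ GH V k (L.sh p.1 p.2) 1 ∧ GS V p.2 1}
  let L' : T → Op M := fun p => ⟨L.W, L.b, L.b', fun e z => L.c e z - p.1.1⟩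
  have hap : ∀ p : T, (L' p).ap p.1.2 = -L.sh p.1.1 p.1.2 := fun p => by
    funext e z
    simp only [L', Op.sh, Op.ap, lop, Pi.neg_apply]
    ring
  have hfix : ∀ e ∈ M.C, ∀ z ∈ e.target, ∀ g : E n → ℂ, (∀ w ∈ e.target, ContDiffAt ℝ ∞ g w) →
      LB k z fun _ : T => g := fun e he z hz g hg =>
    hFAM.fix T k z g (hg z hz) (mem_of_superset (e.open_target.mem_nhds hz) hg)
  have hOB : OB k L' := fun e he z hz => by
    refine ⟨fun i j => hfix e he z hz _ fun w hw => hL.smW e he w hw i j,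
      hFAM2.leFix T z (L.W e) (fun i j => (hL.smW e he z hz i j).continuousAt)
        (mem_of_superset (e.open_target.mem_nhds hz) (hL.pos e he)),
      fun j => hfix e he z hz _ fun w hw => hL.smb e he w hw j,
      fun j => hfix e he z hz _ fun w hw => hL.smb' e he w hw j, ?_⟩
    refine hFAM.sub T k z (fun _ => L.c e) (fun p _ => (p.1.1 : ℂ)) (hfix e he z hz _ (hL.smc e he))
      (hFAM.scal T k z _ (max |t| |t'|) fun p => ?_)
    rw [norm_real, Real.norm_eq_abs]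
    exact abs_le_max_abs_abs p.2.1.1 p.2.1.2
  have hGB := hUNI M V T m k L' (fun p => p.1.2) hOB (fun p => p.2.2.1)
    (hBR.toGU M V T m _ 1 (fun p => p.2.2.1) fun p => p.2.2.2.2)
    (hBR.toGB M V T m k _ 1 (fun p => by
        rw [hap]
        exact (secC M m).neg_mem (sec_sh hL _ p.2.2.1))
      fun p => by
        rw [hap]
        exact (hBR.siz M V m k).neg _ (sec_sh hL _ p.2.2.1) 1 p.2.2.2.1)
  obtain ⟨C, hC, h⟩ := hBR.toGH M V T (k + 2) _ hGB
  exact ⟨C, hC, fun τ hτ s hs h1 h2 => h ⟨(τ, s), hτ, hs, h1, h2⟩⟩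

/-- The estimate with the uniform norm on the right side. -/
theorem scaled (hHK : St_HK n) (hFAM : St_FAM n) (hFAM2 : St_FAM2 n) (hBR : St_BR n)
    (hUNI : St_UNI n) (V : M.Cov) (m : M.Co) (k : ℕ) (L : Op M) (t t' : ℝ) (hL : L.OkC m) :
    ∃ C, 0 < C ∧ ∀ τ ∈ Icc t t', ∀ s N, M.SecC m s → 0 < N → GH V k (L.sh τ s) N → GS V s N →
      GH V (k + 2) s (N * C) := by
  obtain ⟨C, hC, h⟩ := unit hFAM hFAM2 hBR hUNI V m k L t t' hL
  refine ⟨C, hC, fun τ hτ s N hs hN h1 h2 => ?_⟩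
  have hs' := sec_smul ((N⁻¹ : ℝ) : ℂ) hs
  have h3 := h τ hτ _ hs' (by
      rw [sh_smul, ← inv_mul_cancel₀ hN.ne']
      exact gh_smul hHK (sec_sh hL τ hs) _ (inv_nonneg.2 hN.le) h1)
    fun a x hx => by
      rw [norm_mul, norm_real, Real.norm_of_nonneg (inv_nonneg.2 hN.le), inv_mul_le_iff₀ hN,
        mul_one]
      exact h2 a x hx
  have h4 := gh_smul hHK hs' N hN.le h3
  have e : (fun e z => (N : ℂ) * (((N⁻¹ : ℝ) : ℂ) * s e z)) = s := by
    funext e z
    rw [← mul_assoc, ← ofReal_mul, mul_inv_cancel₀ hN.ne', ofReal_one, one_mul]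
  rwa [e] at h4

end ESTc

theorem st_EST {n : ℕ} (hHK : St_HK n) (hFAM : St_FAM n) (hFAM2 : St_FAM2 n) (hBR : St_BR n)
    (hUNI : St_UNI n) : St_EST n := by
  intro M V m k L t t' hL hI
  obtain ⟨C, hC, h⟩ := ESTc.scaled hHK hFAM hFAM2 hBR hUNI V m k L t t' hL
  obtain ⟨C', hC', hI⟩ := hI (2 * C)⁻¹ (by positivity)
  refine ⟨2 * ((1 + C') * C), by positivity, fun τ hτ s B hs hB a => ?_⟩
  have hS : GS V (L.sh τ s) B := fun a => (hHK.anti k 0 _ _ _ (Nat.zero_le k) (hB a)).1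
  have hB0 : 0 ≤ B := (norm_nonneg _).trans
    (hS a (V.c a) (mem_closedBall_self (by linarith [V.pos a])))
  obtain ⟨A, hA, hA'⟩ := (hBR.siz M V m (k + 2)).ex s hs
  have key : ∀ j : ℕ, GH V (k + 2) s (A * (1 / 2) ^ j + 2 * ((1 + C') * C) * B) := fun j => by
    induction j with
    | zero =>
      refine (hBR.siz M V m (k + 2)).mono s hs _ _ ?_ hA'
      have : 0 ≤ 2 * ((1 + C') * C) * B := by positivity
      linarith [pow_zero (1 / 2 : ℝ), mul_one A, show A * (1 / 2) ^ 0 = A by simp]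
    | succ j ih =>
      set A' := A * (1 / 2) ^ j + 2 * ((1 + C') * C) * B with hA''
      have hpos : 0 < A' := by positivity
      have h1 := hI τ hτ.1 s A' B hs (fun a => hHK.anti _ 0 _ _ _ (Nat.zero_le _) (ih a)) hS
      have h2 : 0 ≤ (2 * C)⁻¹ * A' + C' * B := by positivity
      have h3 := h τ hτ s (B + ((2 * C)⁻¹ * A' + C' * B)) hs (by positivity)
        (fun a => hHK.mono k _ _ _ _ _ Subset.rfl (by linarith) (hB a))
        fun a x hx => (h1 a x hx).trans (by linarith)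
      refine (congrArg (GH V (k + 2) s) ?_).mpr h3
      rw [hA'']
      field_simp
      ring
  refine hHK.closed _ _ _ _ fun ε hε => ?_
  obtain ⟨j, hj⟩ := exists_pow_lt_of_lt_one (div_pos hε hA) (show (1 / 2 : ℝ) < 1 by norm_num)
  refine hHK.mono _ _ _ _ _ _ Subset.rfl ?_ (key j a)
  rw [lt_div_iff₀ hA] at hj
  linarith

end Pool.Agent.Lib.KP21
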