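import Pool.Agent.Lib.KP21.Blue
import Pool.Agent.Lib.HS21.B_LIN

/-! Solvability of the linear equation. -/

open scoped Classical Topology ContDiff ComplexOrder Matrix
open Set Filter Complex Metric

set_option linter.unusedVariables false

noncomputable section

namespace Pool.Agent.Lib.KP21

open Pool.Agent.Lib.SV (E)
open Pool.Agent.Lib.HS32 Pool.Agent.Lib.HS21
open Pool.Agent.Lib.HS21.LIN (bs0 bs1 dz_eq dzb_eq hess_eq lop_add lop_sub lop_lim kb_sub gh_congr gh_anti gh_gs)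

namespace LINc

variable {n : ℕ}

variable {M : Mf n}

theorem sec_smul {m : M.Co} {s : M.Fam ℂ} (c : ℂ) (hs : M.SecC m s) :
    M.SecC m fun e z => c * s e z :=
  ⟨fun e he z hz => contDiffAt_const.mul (hs.sm e he z hz), fun e he e' he' x hx hx' => by
    beta_reduce
    rw [hs.cmp e he e' he' x hx hx', mul_assoc]⟩

theorem sec_sh {m : M.Co} {L : Op M} (hL : L.OkC m) (τ : ℝ) {s : M.Fam ℂ} (hs : M.SecC m s) :
    M.SecC m (L.sh τ s) :=
  (secC M m).sub_mem (x := fun e z => (τ : ℂ) * s e z) (y := L.ap s) (sec_smul _ hs) (hL.sec s hs)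

theorem sh_add {m : M.Co} (L : Op M) (τ : ℝ) {s s' : M.Fam ℂ} (hs : M.SecC m s) (hs' : M.SecC m s') :
    M.All fun e z => L.sh τ (s + s') e z = L.sh τ s e z + L.sh τ s' e z := fun e he z hz => by
  have := lop_add (L.W e) (L.b e) (L.b' e) (L.c e) (hs.sm e he z hz) (hs'.sm e he z hz)
  have e1 : L.ap (s + s') e z = L.ap s e z + L.ap s' e z := this
  simp only [Op.sh, e1, Pi.add_apply]
  ring

theorem sh_sub {m : M.Co} (L : Op M) (τ : ℝ) {s s' : M.Fam ℂ} (hs : M.SecC m s) (hs' : M.SecC m s') :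
    M.All fun e z => L.sh τ (s - s') e z = L.sh τ s e z - L.sh τ s' e z := fun e he z hz => by
  have := lop_sub (L.W e) (L.b e) (L.b' e) (L.c e) (hs.sm e he z hz) (hs'.sm e he z hz)
  have e1 : L.ap (s - s') e z = L.ap s e z - L.ap s' e z := this
  simp only [Op.sh, e1, Pi.sub_apply]
  ring

theorem dns (hHK : St_HK n) (hBR : St_BR n) (hDENS : St_DENS) (hPAR : St_PAR n)
    (hEST : St_EST n) (V : M.Cov) {m : M.Co} (k : ℕ) {L : Op M} {t : ℝ} (hL : L.OkC m)
    (hI : L.InjC V m t) : Dns (secC M m) (secC M m) (GH V k) (L.sh t) := by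
  obtain ⟨τ0, h0⟩ := hPAR M V m k L hL
  obtain ⟨C, hC, hE⟩ := hEST M V m k L t (max t τ0) hL hI
  refine hDENS.cont _ _ (secC M m) (secC M m) (GH V k) L.sh t (max t τ0) C (hBR.siz M V m k)
    (fun τ _ => ⟨fun v hv => sec_sh hL τ hv, fun v hv v' hv' ε hε => ?_⟩)
    (fun τ hτ r hr v hv B hB h => ?_) (max t τ0) ⟨le_max_left _ _, le_rfl⟩ t
    ⟨le_rfl, le_max_left _ _⟩ (h0 _ (le_max_right _ _))
  · refine gh_congr hHK V (s := fun _ _ => 0) (fun e he z hz => ?_)
      fun a => hHK.zero k _ ε hε.le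
    have := sh_add L τ (m := m) hv hv' e he z hz
    simp only [Pi.sub_apply, Pi.add_apply, this, sub_self]
  · have h1 := gh_anti hHK V (Nat.le_add_right k 2) (hE τ hτ v B hv h)
    have hv' : M.SecC m v := hv
    refine gh_congr hHK V (s := fun e z => ((τ - r : ℝ) : ℂ) * v e z) (fun e he z hz => ?_)
      fun a => ?_
    · simp only [Pi.sub_apply, Op.sh]
      push_cast
      ring
    · have := hHK.smul k (Kb V a) ((τ - r : ℝ) : ℂ) (v (V.e a)) _
        (fun x hx => hv'.sm _ (V.mem a) x (kb_sub V a hx)) (h1 a)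
      rw [Complex.norm_real, Real.norm_eq_abs] at this
      exact hHK.mono k _ _ _ _ _ Subset.rfl (le_of_eq (by ring)) this

end LINc

open LINc in
theorem st_LIN {n : ℕ} (hHK : St_HK n) (hBR : St_BR n) (hDENS : St_DENS) (hPAR : St_PAR n)
    (hEST : St_EST n) (hLIME : St_LIME n) : St_LIN n := by
  intro M V m L t hL hI f hf
  have hd := fun k : ℕ => dns hHK hBR hDENS hPAR hEST V k hL hI f hf (1 / ((k : ℝ) + 1))
    Nat.one_div_pos_of_nat
  choose s hs hsf using hd
  have hs' : ∀ k, M.SecC m (s k) := hs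
  set ε : ℕ → ℝ := fun k => 1 / ((k : ℝ) + 1) with hε
  have hε0 : Tendsto ε atTop (𝓝 0) := tendsto_one_div_add_atTop_nhds_zero_nat
  have hεm : ∀ {k l : ℕ}, k ≤ l → ε l ≤ ε k := fun h => Nat.one_div_le_one_div h
  have hr : ∀ k, L.sh t (s k) - f ∈ secC M m := fun k =>
    (secC M m).sub_mem (sec_sh hL t (hs' k)) hf
  have hsub : ∀ k l, M.SecC m (s k - s l) := fun k l => (secC M m).sub_mem (hs k) (hs l)
  have hc : ∀ j, ∃ C, 0 ≤ C ∧ ∀ k l, j ≤ k → j ≤ l → GH V j (s k - s l) (C * (ε k + ε l)) := by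
    intro j
    obtain ⟨C, hC, hE⟩ := hEST M V m j L t t hL hI
    refine ⟨C, hC, fun k l hk hl => gh_anti hHK V (Nat.le_add_right j 2)
      (hE t ⟨le_rfl, le_rfl⟩ _ _ (hsub k l) ?_)⟩
    have z := hBR.siz M V m j
    have a := z.add _ (hr k) _ ((secC M m).neg_mem (hr l)) _ _ (gh_anti hHK V hk (hsf k))
      (z.neg _ (hr l) _ (gh_anti hHK V hl (hsf l)))
    refine gh_congr hHK V (fun e he w hw => ?_) a
    have := sh_sub L t (hs' k) (hs' l) e he w hw
    simp only [Pi.sub_apply, Pi.add_apply, Pi.neg_apply, this]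
    ring
  have hcau : ∀ e ∈ M.C, ∀ z ∈ e.target, CauchySeq fun k => s k e z := by
    intro e he z hz
    obtain ⟨C, hC, h1⟩ := hc 0
    obtain ⟨C', hC', h2⟩ := hBR.cptS M V m e he {z} (singleton_subset_iff.2 hz) isCompact_singleton
    refine cauchySeq_of_le_tendsto_0 (fun N => C' * (C * (ε N + ε N))) (fun k l N hk hl => ?_) ?_
    · have := h2 _ _ (hsub k l) (gh_gs hHK V (h1 k l (Nat.zero_le _) (Nat.zero_le _))) z rfl
      rw [dist_eq_norm]
      refine le_trans this ?_
      have := hεm hk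
      have := hεm hl
      gcongr
    · simpa using ((hε0.add hε0).const_mul C).const_mul C'
  set g : M.Fam ℂ := fun e z => limUnder atTop fun k => s k e z with hg
  have hlim : ∀ e ∈ M.C, ∀ z ∈ e.target, Tendsto (fun k => s k e z) atTop (𝓝 (g e z)) :=
    fun e he z hz => (hcau e he z hz).tendsto_limUnder
  have hgb : ∀ j, GB M j fun i => s (j + i) := by
    intro j
    obtain ⟨C, hC, h1⟩ := hc j
    have z := hBR.siz M V m j
    obtain ⟨B, hB, h2⟩ := z.ex _ (hs j)
    refine hBR.toGB M V ℕ m j _ (C * (ε j + ε j) + B) (fun i => hs' _) fun i => ?_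
    have a := z.add _ ((secC M m).sub_mem (hs (j + i)) (hs j)) _ (hs j) _ _
      (h1 (j + i) j (Nat.le_add_right _ _) le_rfl) h2
    rw [sub_add_cancel] at a
    refine z.mono _ (hs _) _ _ ?_ a
    have := hεm (Nat.le_add_right j i)
    gcongr
  have hL2 := fun e (he : e ∈ M.C) => hLIME e.target (fun k => s k e) (g e) e.open_target
    (fun z hz j => ⟨j, hgb j e he z hz⟩) (hlim e he)
  refine ⟨g, ⟨fun e he z hz => (hL2 e he).1 z hz, fun e he e' he' x hx hx' => ?_⟩,
    fun e he z hz => ?_⟩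
  · refine tendsto_nhds_unique (hlim e' he' _ (e'.map_source hx')) ?_
    refine ((hlim e he _ (e.map_source hx)).mul_const (m.c e e' x)).congr fun k => ?_
    exact ((hs' k).cmp e he e' he' x hx hx').symm
  · have a1 : Tendsto (fun k => L.sh t (s k) e z) atTop (𝓝 (L.sh t g e z)) :=
      ((hlim e he z hz).const_mul (t : ℂ)).sub (lop_lim _ _ _ _ (fun k => (hs' k).sm e he z hz)
        ((hL2 e he).1 z hz) fun l => (hL2 e he).2 l z hz)
    refine tendsto_nhds_unique a1 ?_
    obtain ⟨C', hC', h2⟩ := hBR.cptS M V m e he {z} (singleton_subset_iff.2 hz) isCompact_singleton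
    rw [tendsto_iff_norm_sub_tendsto_zero]
    refine squeeze_zero (fun k => norm_nonneg _)
      (fun k => h2 _ _ (hr k) (gh_gs hHK V (hsf k)) z rfl) ?_
    have := hε0.const_mul C'
    rwa [mul_zero] at this

end Pool.Agent.Lib.KP21
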