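import Pool.Agent.Lib.KP21.Blue
import Pool.Agent.Lib.HS21.B_UNI

/-! Row UNI: the uniform global estimate. -/

open scoped Classical Topology ContDiff ComplexOrder Matrix
open Set Filter Complex Metric

set_option linter.unusedVariables false

noncomputable section

namespace Pool.Agent.Lib.KP21

open Pool.Agent.Lib.SV (E)
open Pool.Agent.Lib.HS32 Pool.Agent.Lib.HS21
open Pool.Agent.Lib.HS21.UNI (fd_mul dz_mul dzb_mul hess_mul lop_mul step ob_anti ob_re gh_mono)

namespace UNIc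

variable {n : ℕ}

variable {M : Mf n}

theorem sec_mul {m : M.Co} {s : M.Fam ℂ} (hs : M.SecC m s) (c : ℂ) :
    M.SecC m fun e z => c * s e z :=
  ⟨fun e he z hz => contDiffAt_const.mul (hs.sm e he z hz),
    fun e he e' he' x hx hx' => by simp only [hs.cmp e he e' he' x hx hx', mul_assoc]⟩

theorem gh_mul (hK : St_HK n) (V : M.Cov) {m : M.Co} {k : ℕ} {s : M.Fam ℂ} (hs : M.SecC m s) (c : ℂ)
    {B : ℝ} (h : GH V k s B) : GH V k (fun e z => c * s e z) (‖c‖ * B) := fun a =>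
  hK.smul k _ c _ B (fun x hx => hs.sm _ (V.mem a) x (V.sub a
    (closedBall_subset_closedBall (by linarith [V.pos a]) hx))) (h a)

theorem base (hK : St_HK n) (hF : St_FAM n) (hB : St_BR n) (hR : St_REG n) (V : M.Cov)
    {T : Type} (m : M.Co) (L : T → Op M) (s : T → M.Fam ℂ) (hL : OB 0 L)
    (hs : ∀ t, M.SecC m (s t)) (hu : GU M s) (hf : GB M 0 fun t => (L t).ap (s t)) :
    GB M 1 s := by
  let T' : Type := {p : T × ℝ // 0 ≤ p.2 ∧ GH V 1 (s p.1) p.2}
  let c : T' → ℂ := fun p => (((1 + p.1.2)⁻¹ : ℝ) : ℂ)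
  have hc : ∀ p, ‖c p‖ = (1 + p.1.2)⁻¹ := fun p => by
    have := p.2.1
    simp only [c, Complex.norm_real, Real.norm_eq_abs]
    exact abs_of_pos (by positivity)
  have hc1 : ∀ p, ‖c p‖ ≤ 1 := fun p => by
    rw [hc]
    exact inv_le_one_of_one_le₀ (by linarith [p.2.1])
  let s' : T' → M.Fam ℂ := fun p e z => c p * s p.1.1 e z
  have hs' : ∀ p, M.SecC m (s' p) := fun p => sec_mul (hs _) _
  have h1 : GB M 1 s' := hB.toGB M V T' m 1 s' 1 hs' fun p => by
    refine gh_mono hK V ?_ (gh_mul hK V (hs _) (c p) p.2.2)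
    have := p.2.1
    rw [hc, inv_mul_le_iff₀ (by linarith)]
    linarith
  have h2 : GB M 0 fun p : T' => (L p.1.1).ap (s' p) := by
    intro e he z hz
    refine hF.congr T' 0 z _ _ (Eventually.of_forall fun w p => ?_)
      (hF.mul T' 0 z _ _ (hF.scal T' 0 z c 1 hc1) (hF.re T T' 0 z _ (fun p => p.1.1) (hf e he z hz)))
    exact (lop_mul _ _ _ _ _ _ _).symm
  obtain ⟨C, hC, h3⟩ := hB.toGH M V T' 2 s'
    (step hF hR 0 (fun p : T' => L p.1.1) s' (ob_re hF (fun p : T' => p.1.1) hL) h1 h2)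
  obtain ⟨B0, hB0, h4⟩ := hB.toGS M V T s hu
  obtain ⟨C', hC', h5⟩ := hB.ip1 M V m (1 / (2 * C)) (by positivity)
  have hK0 : 0 ≤ C' * B0 := by positivity
  have h6 : ∀ t B, 0 ≤ B → GH V 1 (s t) B → GH V 1 (s t) ((1 + B) / 2 + C' * B0) := by
    intro t B hB0' h
    have h7 := gh_mul hK V (hs' ⟨(t, B), hB0', h⟩) (((1 + B : ℝ)) : ℂ) (h3 ⟨(t, B), hB0', h⟩)
    have h8 : (fun e z => (((1 + B : ℝ)) : ℂ) * s' ⟨(t, B), hB0', h⟩ e z) = s t := by
      funext e z
      simp only [s', c]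
      rw [← mul_assoc, ← Complex.ofReal_mul, mul_inv_cancel₀ (by linarith), Complex.ofReal_one,
        one_mul]
    rw [h8, Complex.norm_real, Real.norm_eq_abs, abs_of_pos (by linarith)] at h7
    refine gh_mono hK V (le_of_eq ?_) (h5 (s t) _ _ (hs t) h7 (h4 t))
    field_simp
  refine hB.toGB M V T m 1 s (1 + 2 * (C' * B0)) hs fun t => ?_
  obtain ⟨B1, hB1, h9⟩ := (hB.siz M V m 1).ex (s t) (hs t)
  have h10 : ∀ N : ℕ, GH V 1 (s t) (1 + 2 * (C' * B0) + B1 * (1 / 2) ^ N) := by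
    intro N
    induction N with
    | zero => exact gh_mono hK V (by simp; linarith) h9
    | succ N ih =>
      refine gh_mono hK V (le_of_eq ?_) (h6 t _ (by positivity) ih)
      ring
  intro a
  refine hK.closed 1 _ _ _ fun ε hε => ?_
  obtain ⟨N, hN⟩ := exists_pow_lt_of_lt_one (div_pos hε hB1) (by norm_num : (1 / 2 : ℝ) < 1)
  refine gh_mono hK V ?_ (h10 N) a
  rw [lt_div_iff₀ hB1] at hN
  linarith

end UNIc

open UNIc in
theorem st_UNI {n : ℕ} (hK : St_HK n) (hF : St_FAM n) (hB : St_BR n) (hR : St_REG n) :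
    St_UNI n := by
  intro M V T m k L s hL hs hu hf
  have hf' : ∀ j, j ≤ k → GB M j fun t => (L t).ap (s t) := fun j hj e he z hz =>
    hF.anti T k j z _ hj (hf e he z hz)
  have h : ∀ j, j ≤ k + 1 → GB M (j + 1) s := by
    intro j
    induction j with
    | zero =>
      intro _
      exact base hK hF hB hR V m L s (ob_anti hF (Nat.zero_le k) hL) hs hu (hf' 0 (Nat.zero_le k))
    | succ j ih =>
      intro hj
      exact step hF hR j L s (ob_anti hF (by omega) hL) (ih (by omega)) (hf' j (by omega))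
  exact h (k + 1) le_rfl

end Pool.Agent.Lib.KP21
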