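import Pool.Agent.Lib.KP.Blue
import Pool.Agent.Lib.KP21.E21
import Pool.Agent.Lib.KP21.BR
import Pool.Agent.Lib.KP21.UNI
import Pool.Agent.Lib.KP21.EST
import Pool.Agent.Lib.KP21.PAR
import Pool.Agent.Lib.KP21.LIN
import Pool.Agent.Lib.KP21.L2

/-! The linear theory for the sections of a line bundle, without hypotheses. -/

namespace Pool.Agent.Lib.KP21

open Pool.Agent.Lib.HS32
open Pool.Agent.Lib.HS21 (eHK eINTP eFAM eFAM2 eREG eREAL eRES st_DENS eDENSE eLIME)

variable {n : ℕ}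

theorem eBR : St_BR n := st_BR eHK eINTP eFAM eFAM2 mCHN
theorem eUNI : St_UNI n := st_UNI eHK eFAM eBR eREG
theorem ePAR : St_PAR n := st_PAR eHK eINTP eFAM eFAM2 eREAL eRES st_DENS eDENSE eBR mTR mCHN
theorem eEST : St_EST n := st_EST eHK eFAM eFAM2 eBR eUNI

end Pool.Agent.Lib.KP21

namespace Pool.Agent.Lib.KP

open Pool.Agent.Lib.HS21 (eHK st_DENS eLIME)
open Pool.Agent.Lib.KP21

theorem st_LINC : St_LINC := fun _ => st_LIN eHK eBR st_DENS ePAR eEST eLIME

theorem st_L2C : St_L2C := fun _ => st_L2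

end Pool.Agent.Lib.KP
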