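import Pool.Agent.Lib.KP.Kit

/-! The linear theory of the project hs9 for the sections of a line bundle: statements. -/

open scoped Classical Topology ContDiff ComplexOrder Matrix
open Set Filter Complex Metric MeasureTheory

noncomputable section

namespace Pool.Agent.Lib.KP21

open Pool.Agent.Lib.SV (E)
open Pool.Agent.Lib.HS32 Pool.Agent.Lib.HS21

/-- Global sizes and bounded families. -/
structure St_BR (n : ℕ) : Prop where
  toGH : ∀ (M : Mf n) (V : M.Cov) (T : Type) k (s : T → M.Fam ℂ), GB M k s →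
    ∃ B, 0 < B ∧ ∀ t, GH V k (s t) B
  toGB : ∀ (M : Mf n) (V : M.Cov) (T : Type) m k (s : T → M.Fam ℂ) B, (∀ t, M.SecC m (s t)) →
    (∀ t, GH V k (s t) B) → GB M k s
  toGB' : ∀ (M : Mf n) (T : Type) m k (s : T → M.Fam ℂ), (∀ t, M.SecC m (s t)) →
    (∀ x, ∃ e ∈ M.C, x ∈ e.source ∧ LB k (e x) fun t => s t e) → GB M k s
  toGU : ∀ (M : Mf n) (V : M.Cov) (T : Type) m (s : T → M.Fam ℂ) B, (∀ t, M.SecC m (s t)) →
    (∀ t, GS V (s t) B) → GU M s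
  toGS : ∀ (M : Mf n) (V : M.Cov) (T : Type) (s : T → M.Fam ℂ), GU M s →
    ∃ B, 0 < B ∧ ∀ t, GS V (s t) B
  fix : ∀ (M : Mf n) (T : Type) m k (s : M.Fam ℂ), M.SecC m s → GB M k fun _ : T => s
  siz : ∀ (M : Mf n) (V : M.Cov) m k, Siz (secC M m) (GH V k)
  cptH : ∀ (M : Mf n) (V : M.Cov) m k, ∀ e ∈ M.C, ∀ K ⊆ e.target, IsCompact K → ∃ C, 0 ≤ C ∧
    ∀ s B, M.SecC m s → GH V k s B → HO k K (s e) (C * B)
  cptS : ∀ (M : Mf n) (V : M.Cov) m, ∀ e ∈ M.C, ∀ K ⊆ e.target, IsCompact K → ∃ C, 0 ≤ C ∧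
    ∀ s B, M.SecC m s → GS V s B → Su K (s e) (C * B)
  ip1 : ∀ (M : Mf n) (V : M.Cov) m (ε : ℝ), 0 < ε → ∃ C, 0 ≤ C ∧ ∀ s B B', M.SecC m s →
    GH V 2 s B → GS V s B' → GH V 1 s (ε * B + C * B')

/-- Uniform global estimate. -/
def St_UNI (n : ℕ) : Prop := ∀ (M : Mf n) (V : M.Cov) (T : Type) m k (L : T → Op M)
  (s : T → M.Fam ℂ), OB k L → (∀ t, M.SecC m (s t)) → GU M s →
    GB M k (fun t => (L t).ap (s t)) → GB M (k + 2) s

/-- Approximate solvability for large shifts. -/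
def St_PAR (n : ℕ) : Prop := ∀ (M : Mf n) (V : M.Cov) m k (L : Op M), L.OkC m →
  ∃ τ0 : ℝ, ∀ τ, τ0 ≤ τ → Dns (secC M m) (secC M m) (GH V k) (L.sh τ)

/-- The estimate for the shifted operators. -/
def St_EST (n : ℕ) : Prop := ∀ (M : Mf n) (V : M.Cov) m k (L : Op M) (t t' : ℝ), L.OkC m →
  L.InjC V m t → ∃ C, 0 ≤ C ∧ ∀ τ ∈ Icc t t', ∀ s B, M.SecC m s → GH V k (L.sh τ s) B →
    GH V (k + 2) s (C * B)

/-- Solvability of the linear equation. -/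
def St_LIN (n : ℕ) : Prop := ∀ (M : Mf n) (V : M.Cov) m (L : Op M) (t : ℝ), L.OkC m →
  L.InjC V m t → ∀ f, M.SecC m f → ∃ s, M.SecC m s ∧ M.All fun e z => L.sh t s e z = f e z

/-- Control of the uniform norm by an integral norm. -/
def St_L2 (n : ℕ) : Prop := ∀ (M : Mf n) [M.Cpt] (V : M.Cov) m (L : Op M) (t : ℝ)
  (μ : Measure M.X) (H : M.Fam (Mat n)) (φ : M.Fam ℝ) (q : M.Fam ℂ → M.X → ℝ), L.OkC m →
  M.Met H → M.IsMu H μ → (M.All fun e z => ContinuousAt (φ e) z) →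
  (∀ s, M.SecC m s → M.Rep (q s) fun e z => ‖s e z‖ ^ 2 * Real.exp (φ e z)) →
  (∃ C, ∀ τ, t ≤ τ → ∀ s, M.SecC m s → ∫ x, q s x ∂μ ≤ C * ∫ x, q (L.sh τ s) x ∂μ) →
    L.InjC V m t

end Pool.Agent.Lib.KP21
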