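import Pool.Agent.Lib.KP21.Blue
import Pool.Agent.Lib.HS.K21

/-! Small lemmas on sections of a line bundle. -/

open scoped Classical Topology ContDiff ComplexOrder Matrix
open Set Filter Complex Metric

set_option linter.unusedVariables false

noncomputable section

namespace Pool.Agent.Lib.KP21

open Pool.Agent.Lib.SV (E)
open Pool.Agent.Lib.HS32 Pool.Agent.Lib.HS21

section mf

variable {n : ℕ} {M : Mf n} {V : M.Cov} {m : M.Co} {k : ℕ} {s s' : M.Fam ℂ}

theorem sec_smO (h : M.SecC m s) (a : Fin V.r) : SmO (Kb V a) (s (V.e a)) :=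
  fun x hx => h.sm _ (V.mem a) x (Kb_sub V a hx)

theorem sec_smul (h : M.SecC m s) (a : ℂ) : M.SecC m fun e z => a * s e z :=
  ⟨fun e he z hz => contDiffAt_const.mul (h.sm e he z hz), fun e he e' he' x hx hx' => by
    simp only [h.cmp e he e' he' x hx hx', mul_assoc]⟩

theorem sec_add (h : M.SecC m s) (h' : M.SecC m s') : M.SecC m fun e z => s e z + s' e z :=
  (secC M m).add_mem h h'

theorem sec_sub (h : M.SecC m s) (h' : M.SecC m s') : M.SecC m fun e z => s e z - s' e z :=
  (secC M m).sub_mem h h'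

theorem _root_.Pool.Agent.Lib.HS21.Op.OkC.sh {L : Op M} (hL : L.OkC m) (τ : ℝ) (h : M.SecC m s) : M.SecC m (L.sh τ s) :=
  sec_sub (sec_smul h τ) (hL.sec s h)

theorem sh_add {L : Op M} (τ : ℝ) (h : M.SecC m s) (h' : M.SecC m s') :
    M.All fun e z => L.sh τ (s + s') e z = L.sh τ s e z + L.sh τ s' e z := fun e he z hz => by
  have := lop_add (W := L.W e) (b := L.b e) (b' := L.b' e) (c := L.c e) (h.sm e he z hz)
    (h'.sm e he z hz)
  simp only [Op.sh, Op.ap, Pi.add_apply]
  rw [show s e + s' e = fun w => s e w + s' e w from rfl, this]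
  ring

theorem sh_lin (hK : St_HK n) {L : Op M} (hL : L.OkC m) (τ : ℝ) :
    Lin (secC M m) (secC M m) (GH V k) (L.sh τ) where
  mem := fun v hv => hL.sh τ hv
  add := fun v hv v' hv' ε hε =>
    GH.congr hK (s := fun _ _ => 0) (fun a => hK.zero k _ _ hε.le) fun e he z hz => by
      simp only [Pi.sub_apply, Pi.add_apply, sh_add τ hv hv' e he z hz, sub_self]

end mf

end Pool.Agent.Lib.KP21
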